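import Mathlib

/-!
# Minimum connected dominating sets of {S_2, T_2}-free graphs (MP_8b4774_co, Q1)

The answer to the question is no, already for k = 2: there is a connected graph on 17 vertices with no
induced 2-subdivided claw and no induced 2-subdivided net whose only minimum connected dominating set
induces a claw.

The graph: a vertex 0 with a pendant neighbour 1 and three more neighbours 2, 3, 4; three cliques
P_1, P_2, P_3 of four vertices each; the vertex 1 + i is joined to all of P_i; between the cliques the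
graph is the tripartite complement of a triangle-free graph of diameter two on 12 vertices in which
every vertex has neighbours in both other parts.
-/

set_option autoImplicit false
set_option synthInstance.maxHeartbeats 400000
set_option synthInstance.maxSize 100000
set_option maxRecDepth 100000

open SimpleGraph

namespace Pool.Agent.Results.MP_8b4774_co.DominatingClawUnavoidable

/-- oriented edges of the `k`-subdivided claw: `none` is the centre, `some (i, j)` is the
`j`-th vertex of the `i`-th arm -/
def clawRel (k : ℕ) : Option (Fin 3 × Fin k) → Option (Fin 3 × Fin k) → Prop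
  | none, some v => v.2.val = 0
  | some u, some v => u.1 = v.1 ∧ v.2.val = u.2.val + 1
  | _, none => False

/-- the `k`-subdivided claw `S_k` -/
def subClaw (k : ℕ) : SimpleGraph (Option (Fin 3 × Fin k)) := SimpleGraph.fromRel (clawRel k)

/-- oriented edges of the `k`-subdivided net: the vertices `(i, 0)` form the triangle, and `(i, j)`
with `j ≥ 1` is the `j`-th vertex of the pendant path at `(i, 0)` -/
def netRel (k : ℕ) (u v : Fin 3 × Fin (k + 1)) : Prop :=
  (u.2.val = 0 ∧ v.2.val = 0) ∨ (u.1 = v.1 ∧ v.2.val = u.2.val + 1)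

/-- the `k`-subdivided net `T_k` -/
def subNet (k : ℕ) : SimpleGraph (Fin 3 × Fin (k + 1)) := SimpleGraph.fromRel (netRel k)

/-- `D` is a connected distance-`r` dominating set of `G` -/
def IsConnDom {V : Type} (G : SimpleGraph V) (r : ℕ) (D : Finset V) : Prop :=
  D.Nonempty ∧ (G.induce (D : Set V)).Connected ∧ ∀ v, ∃ d ∈ D, G.dist v d ≤ r

/-- `D` is a minimum connected distance-`r` dominating set of `G` -/
def IsMinConnDom {V : Type} (G : SimpleGraph V) (r : ℕ) (D : Finset V) : Prop :=
  IsConnDom G r D ∧ ∀ D' : Finset V, IsConnDom G r D' → D.card ≤ D'.card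

instance (k : ℕ) : DecidableRel (clawRel k) := fun a b => by
  cases a <;> cases b <;> unfold clawRel <;> infer_instance

instance (k : ℕ) : DecidableRel (subClaw k).Adj := fun a b => by
  unfold subClaw
  simp only [SimpleGraph.fromRel_adj]
  infer_instance

/-- the adjacency matrix, row after row, as one number -/
def M : ℕ := 444755311097326288844159872813269219368387557822307529976091595607517450224338049564702

/-- adjacency test -/
def A (u v : Fin 17) : Bool :=
  Nat.beq (Nat.land (Nat.shiftRight M (17 * u.val + v.val)) 1) 1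

theorem A_symm : ∀ u v : Fin 17, A u v = true → A v u = true := by decide +kernel
theorem A_irr : ∀ u : Fin 17, A u u = false := by decide +kernel

/-- the counterexample -/
def G : SimpleGraph (Fin 17) where
  Adj u v := A u v = true
  symm := ⟨fun u v h => A_symm u v h⟩
  loopless := ⟨fun u h => by rw [A_irr u] at h; exact absurd h (by decide)⟩

theorem noS2 : ∀ c a : Fin 17, A c a = true → ∀ x, (A a x && !A c x && c != x) = true →
    ∀ b, (A c b && !A a b && !A x b) = true →
    ∀ y, (A b y && !A c y && !A a y && !A x y) = true →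
    ∀ e, (A c e && !A a e && !A x e && !A b e && !A y e) = true →
    ∀ z, (A e z && !A c z && !A a z && !A x z && !A b z && !A y z) = true → False := by
  decide +kernel

theorem noT2 : ∀ a b : Fin 17, A a b = true → ∀ c, (A a c && A b c) = true →
    ∀ x, (A a x && !A b x && !A c x) = true →
    ∀ y, (A b y && !A a y && !A c y && !A x y) = true →
    ∀ z, (A c z && !A a z && !A b z && !A x z && !A y z) = true →
    ∀ p, (A x p && !A a p && !A b p && !A c p && !A y p && !A z p) = true →
    ∀ q, (A y q && !A a q && !A b q && !A c q && !A x q && !A z q && !A p q) = true →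
    ∀ r, (A z r && !A a r && !A b r && !A c r && !A x r && !A y r && !A p r && !A q r) = true →
      False := by
  decide +kernel

/-- equal or adjacent -/
def B (u v : Fin 17) : Bool := u == v || A u v

theorem dom1 : ∀ a : Fin 17, (a = 0 ∨ a = 1) → ¬ (∀ v, B v a = true) := by decide +kernel
theorem dom2 : ∀ a : Fin 17, (a = 0 ∨ a = 1) → ∀ b, A a b = true →
    ¬ (∀ v, B v a = true ∨ B v b = true) := by decide +kernel
theorem dom3 : ∀ a : Fin 17, (a = 0 ∨ a = 1) → ∀ b, A a b = true →
    ∀ c, (A a c = true ∨ A b c = true) →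
    ¬ (∀ v, B v a = true ∨ B v b = true ∨ B v c = true) := by decide +kernel
theorem dom4 : ∀ a : Fin 17, (a = 0 ∨ a = 1) → ∀ b, A a b = true →
    ∀ c, (A a c = true ∨ A b c = true) → ∀ d, (A a d = true ∨ A b d = true ∨ A c d = true) →
    (∀ v, B v a = true ∨ B v b = true ∨ B v c = true ∨ B v d = true) →
    ({a, b, c, d} : Finset (Fin 17)) = {0, 2, 3, 4} := by decide +kernel

theorem adj_iff (u v : Fin 17) : G.Adj u v ↔ A u v = true := Iff.rfl

theorem A_false {u v : Fin 17} (h : ¬ G.Adj u v) : A u v = false := by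
  rw [adj_iff] at h
  exact Bool.eq_false_iff.mpr h

/-- transfer of adjacency and non-adjacency along an induced embedding -/
theorem tr {W : Type} {H : SimpleGraph W} (f : H ↪g G) (a b : W) (h : H.Adj a b) :
    A (f a) (f b) = true := f.map_rel_iff.mpr h

theorem trn {W : Type} {H : SimpleGraph W} (f : H ↪g G) (a b : W) (h : ¬ H.Adj a b) :
    A (f a) (f b) = false := A_false (fun h' => h (f.map_rel_iff.mp h'))

instance (k : ℕ) : DecidableRel (netRel k) := fun a b => by
  unfold netRel; infer_instance

instance (k : ℕ) : DecidableRel (subNet k).Adj := fun a b => by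
  unfold subNet
  simp only [SimpleGraph.fromRel_adj]
  infer_instance

theorem free_claw : ¬ (subClaw 2 ⊴ G) := by
  rintro ⟨f⟩
  have T := fun a b h => tr f a b h
  have N := fun a b h => trn f a b h
  have hcx : f none ≠ f (some (0, 1)) := fun h => by
    have := f.injective h
    simp at this
  refine noS2 (f none) (f (some (0, 0))) (T _ _ (by decide)) (f (some (0, 1))) ?_
    (f (some (1, 0))) ?_ (f (some (1, 1))) ?_ (f (some (2, 0))) ?_ (f (some (2, 1))) ?_
  · rw [T (some (0, 0)) (some (0, 1)) (by decide), N none (some (0, 1)) (by decide)]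
    simpa using hcx
  · rw [T none (some (1, 0)) (by decide), N (some (0, 0)) (some (1, 0)) (by decide),
      N (some (0, 1)) (some (1, 0)) (by decide)]
    rfl
  · rw [T (some (1, 0)) (some (1, 1)) (by decide), N none (some (1, 1)) (by decide),
      N (some (0, 0)) (some (1, 1)) (by decide), N (some (0, 1)) (some (1, 1)) (by decide)]
    rfl
  · rw [T none (some (2, 0)) (by decide), N (some (0, 0)) (some (2, 0)) (by decide),
      N (some (0, 1)) (some (2, 0)) (by decide), N (some (1, 0)) (some (2, 0)) (by decide),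
      N (some (1, 1)) (some (2, 0)) (by decide)]
    rfl
  · rw [T (some (2, 0)) (some (2, 1)) (by decide), N none (some (2, 1)) (by decide),
      N (some (0, 0)) (some (2, 1)) (by decide),
      N (some (0, 1)) (some (2, 1)) (by decide), N (some (1, 0)) (some (2, 1)) (by decide),
      N (some (1, 1)) (some (2, 1)) (by decide)]
    rfl

theorem free_net : ¬ (subNet 2 ⊴ G) := by
  rintro ⟨f⟩
  have T := fun a b h => tr f a b h
  have N := fun a b h => trn f a b h
  refine noT2 (f (0, 0)) (f (1, 0)) (T _ _ (by decide)) (f (2, 0)) ?_ (f (0, 1)) ?_ (f (1, 1)) ?_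
    (f (2, 1)) ?_ (f (0, 2)) ?_ (f (1, 2)) ?_ (f (2, 2)) ?_
  · rw [T (0, 0) (2, 0) (by decide), T (1, 0) (2, 0) (by decide)]
    rfl
  · rw [T (0, 0) (0, 1) (by decide), N (1, 0) (0, 1) (by decide), N (2, 0) (0, 1) (by decide)]
    rfl
  · rw [T (1, 0) (1, 1) (by decide), N (0, 0) (1, 1) (by decide), N (2, 0) (1, 1) (by decide),
      N (0, 1) (1, 1) (by decide)]
    rfl
  · rw [T (2, 0) (2, 1) (by decide), N (0, 0) (2, 1) (by decide), N (1, 0) (2, 1) (by decide),
      N (0, 1) (2, 1) (by decide), N (1, 1) (2, 1) (by decide)]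
    rfl
  · rw [T (0, 1) (0, 2) (by decide), N (0, 0) (0, 2) (by decide), N (1, 0) (0, 2) (by decide),
      N (2, 0) (0, 2) (by decide), N (1, 1) (0, 2) (by decide), N (2, 1) (0, 2) (by decide)]
    rfl
  · rw [T (1, 1) (1, 2) (by decide), N (0, 0) (1, 2) (by decide), N (1, 0) (1, 2) (by decide),
      N (2, 0) (1, 2) (by decide), N (0, 1) (1, 2) (by decide), N (2, 1) (1, 2) (by decide),
      N (0, 2) (1, 2) (by decide)]
    rfl
  · rw [T (2, 1) (2, 2) (by decide), N (0, 0) (2, 2) (by decide), N (1, 0) (2, 2) (by decide),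
      N (2, 0) (2, 2) (by decide), N (0, 1) (2, 2) (by decide), N (1, 1) (2, 2) (by decide),
      N (0, 2) (2, 2) (by decide), N (1, 2) (2, 2) (by decide)]
    rfl

theorem G_hub : ∀ v : Fin 17, v = 0 ∨ A 0 v = true ∨ ∃ w, A 0 w = true ∧ A w v = true := by
  decide +kernel

theorem G_conn : G.Connected := by
  rw [SimpleGraph.connected_iff_exists_forall_reachable]
  refine ⟨0, fun v => ?_⟩
  rcases G_hub v with h | h | ⟨w, h1, h2⟩
  · subst h; exact SimpleGraph.Reachable.refl _
  · exact SimpleGraph.Adj.reachable (G := G) h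
  · exact (SimpleGraph.Adj.reachable (G := G) h1).trans (SimpleGraph.Adj.reachable (G := G) h2)

theorem dist_le_one {v d : Fin 17} (h : G.dist v d ≤ 1) : B v d = true := by
  unfold B
  rcases Nat.lt_or_ge (G.dist v d) 1 with h0 | h1
  · have h0' : G.dist v d = 0 := by omega
    rw [G_conn.dist_eq_zero_iff] at h0'
    simp [h0']
  · have h1' : G.dist v d = 1 := by omega
    rw [SimpleGraph.dist_eq_one_iff_adj] at h1'
    have : A v d = true := h1'
    simp [this]

theorem le_one_dist {v d : Fin 17} (h : B v d = true) : G.dist v d ≤ 1 := by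
  unfold B at h
  rw [Bool.or_eq_true] at h
  rcases h with h | h
  · have : v = d := by simpa using h
    subst this
    simp
  · have h' : G.Adj v d := h
    rw [SimpleGraph.dist_eq_one_iff_adj.mpr h']

/-- the claw -/
def D0 : Finset (Fin 17) := {0, 2, 3, 4}

theorem D0_hub : ∀ v : Fin 17, v ∈ D0 → v = 0 ∨ A 0 v = true := by decide +kernel
theorem D0_dom : ∀ v : Fin 17, ∃ d ∈ D0, B v d = true := by decide +kernel

theorem D0_connDom : IsConnDom G 1 D0 := by
  refine ⟨⟨0, by decide⟩, ?_, ?_⟩
  · rw [SimpleGraph.connected_iff_exists_forall_reachable]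
    refine ⟨⟨0, by decide⟩, fun v => ?_⟩
    obtain ⟨v, hv⟩ := v
    rcases D0_hub v (by simpa using hv) with h | h
    · subst h; exact SimpleGraph.Reachable.refl _
    · exact SimpleGraph.Adj.reachable (G := G.induce (D0 : Set (Fin 17))) (by exact h)
  · intro v
    obtain ⟨d, hd, h⟩ := D0_dom v
    exact ⟨d, hd, le_one_dist h⟩

/-- a proper part of a connected set sends an edge to the rest -/
theorem step {D : Finset (Fin 17)} (hc : (G.induce (D : Set (Fin 17))).Connected)
    {S : Finset (Fin 17)} (hS : S ⊆ D) (hne : S.Nonempty) (hlt : S.card < D.card) :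
    ∃ u ∈ S, ∃ v ∈ D, v ∉ S ∧ A u v = true := by
  obtain ⟨s, hs⟩ := hne
  obtain ⟨t, htD, htS⟩ : ∃ t ∈ D, t ∉ S := by
    by_contra hcon
    push Not at hcon
    have := Finset.card_le_card (show D ⊆ S from hcon)
    omega
  obtain ⟨w⟩ := hc.preconnected ⟨s, by simpa using hS hs⟩ ⟨t, by simpa using htD⟩
  obtain ⟨d, -, h1, h2⟩ := w.exists_boundary_dart {x | (x : Fin 17) ∈ S} hs htS
  refine ⟨d.fst, h1, d.snd, by simpa using d.snd.2, h2, ?_⟩
  have := d.adj
  exact this

theorem unique {D : Finset (Fin 17)} (h : IsConnDom G 1 D) (hcard : D.card ≤ 4) : D = D0 := by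
  obtain ⟨-, hc, hdom⟩ := h
  obtain ⟨a, haD, ha⟩ := hdom 1
  have ha' : a = 0 ∨ a = 1 := by
    have := dist_le_one ha
    revert this
    have key : ∀ a : Fin 17, B 1 a = true → a = 0 ∨ a = 1 := by decide +kernel
    exact key a
  have hd : ∀ v, ∃ d ∈ D, B v d = true := fun v => by
    obtain ⟨d, hd, hv⟩ := hdom v
    exact ⟨d, hd, dist_le_one hv⟩
  have sub1 : ({a} : Finset (Fin 17)) ⊆ D := by simpa using haD
  have c1 : ({a} : Finset (Fin 17)).card = 1 := by simp
  rcases Nat.lt_or_ge 1 D.card with h1 | h1
  swap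
  · have e : D = {a} := (Finset.eq_of_subset_of_card_le sub1 (by omega)).symm
    exact absurd (fun v => by obtain ⟨d, hd, hv⟩ := hd v; rw [e] at hd; simp at hd; subst hd; exact hv)
      (dom1 a ha')
  obtain ⟨u, hu, b, hbD, hbS, hub⟩ := step hc sub1 ⟨a, by simp⟩ (by omega)
  have hab : A a b = true := by simp at hu; subst hu; exact hub
  have hab' : b ≠ a := by simpa using hbS
  have sub2 : ({a, b} : Finset (Fin 17)) ⊆ D := by
    intro x hx; simp at hx; rcases hx with h | h <;> subst h <;> assumption
  have c2 : ({a, b} : Finset (Fin 17)).card = 2 := Finset.card_pair (Ne.symm hab')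
  rcases Nat.lt_or_ge 2 D.card with h2 | h2
  swap
  · have e : D = {a, b} := (Finset.eq_of_subset_of_card_le sub2 (by omega)).symm
    refine absurd (fun v => ?_) (dom2 a ha' b hab)
    obtain ⟨d, hd, hv⟩ := hd v
    rw [e] at hd; simp at hd
    rcases hd with h | h <;> subst h <;> simp [hv]
  obtain ⟨u, hu, c, hcD, hcS, huc⟩ := step hc sub2 ⟨a, by simp⟩ (by omega)
  have hac : A a c = true ∨ A b c = true := by
    simp at hu; rcases hu with h | h <;> subst h <;> simp [huc]
  have sub3 : ({a, b, c} : Finset (Fin 17)) ⊆ D := by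
    intro x hx; simp at hx; rcases hx with h | h | h <;> subst h <;> assumption
  have c3 : ({a, b, c} : Finset (Fin 17)).card = 3 := by
    simp at hcS
    rw [Finset.card_eq_three]
    exact ⟨a, b, c, Ne.symm hab', Ne.symm hcS.1, Ne.symm hcS.2, rfl⟩
  rcases Nat.lt_or_ge 3 D.card with h3 | h3
  swap
  · have e : D = {a, b, c} := (Finset.eq_of_subset_of_card_le sub3 (by omega)).symm
    refine absurd (fun v => ?_) (dom3 a ha' b hab c hac)
    obtain ⟨d, hd, hv⟩ := hd v
    rw [e] at hd; simp at hd
    rcases hd with h | h | h <;> subst h <;> simp [hv]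
  obtain ⟨u, hu, d, hdD, hdS, hud⟩ := step hc sub3 ⟨a, by simp⟩ (by omega)
  have had : A a d = true ∨ A b d = true ∨ A c d = true := by
    simp at hu; rcases hu with h | h | h <;> subst h <;> simp [hud]
  have sub4 : ({a, b, c, d} : Finset (Fin 17)) ⊆ D := by
    intro x hx; simp at hx; rcases hx with h | h | h | h <;> subst h <;> assumption
  have c4 : ({a, b, c, d} : Finset (Fin 17)).card = 4 := by
    have : ({a, b, c, d} : Finset (Fin 17)) = insert d {a, b, c} := by
      rw [Finset.insert_comm d a, Finset.insert_comm d b, Finset.pair_comm d c]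
    rw [this, Finset.card_insert_of_notMem hdS, c3]
  have e : D = {a, b, c, d} := (Finset.eq_of_subset_of_card_le sub4 (by omega)).symm
  rw [e]
  refine dom4 a ha' b hab c hac d had (fun v => ?_)
  obtain ⟨x, hx, hv⟩ := hd v
  rw [e] at hx; simp at hx
  rcases hx with h | h | h | h <;> subst h <;> simp [hv]

/-- the embedding of the claw in `G[D0]` -/
def cl : Option (Fin 3 × Fin 1) → Fin 17
  | none => 0
  | some u => ⟨2 + u.1.val, by omega⟩

theorem cl_mem : ∀ u, cl u ∈ D0 := by decide
theorem cl_inj : ∀ u v, cl u = cl v → u = v := by decide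
theorem cl_adj : ∀ u v, A (cl u) (cl v) = true ↔ (subClaw 1).Adj u v := by decide +kernel

theorem claw_in : subClaw 1 ⊴ G.induce (D0 : Set (Fin 17)) := by
  refine ⟨⟨⟨fun u => ⟨cl u, by simpa using cl_mem u⟩, ?_⟩, ?_⟩⟩
  · intro u v h
    exact cl_inj u v (by simpa using h)
  · intro u v
    exact cl_adj u v

/-- Negative answer to Q1, already for `k = 2`: there is a connected graph on 17 vertices without
induced `S_2` and without induced `T_2` that has exactly one minimum connected dominating set, and
this set induces a claw. Consequently the statement asked about in Q1 is false. -/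
theorem result :
    (∃ G : SimpleGraph (Fin 17), G.Connected ∧ ¬ (subClaw 2 ⊴ G) ∧ ¬ (subNet 2 ⊴ G) ∧
      ∃ D0 : Finset (Fin 17), IsMinConnDom G 1 D0 ∧ (∀ D, IsMinConnDom G 1 D → D = D0) ∧
        Nonempty (subClaw 1 ≃g G.induce (D0 : Set (Fin 17)))) ∧
    ¬ (∀ k : ℕ, 2 ≤ k → ∀ (V : Type) [Fintype V] (G : SimpleGraph V), G.Connected →
        ¬ (subClaw k ⊴ G) → ¬ (subNet k ⊴ G) →
        ∃ D : Finset V, IsMinConnDom G (k - 1) D ∧
          ¬ (subClaw 1 ⊴ G.induce (D : Set V)) ∧ ¬ (subNet 1 ⊴ G.induce (D : Set V))) := by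
  have key : ∀ D, IsMinConnDom G 1 D → D = D0 := fun D hD =>
    unique hD.1 (by have := hD.2 D0 D0_connDom; simpa [D0] using this)
  have hmin : IsMinConnDom G 1 D0 := by
    refine ⟨D0_connDom, fun D' hD' => ?_⟩
    by_contra hcon
    have hlt : D'.card < D0.card := by omega
    have h4 : D0.card = 4 := by decide
    have := unique hD' (by omega)
    rw [this] at hlt
    exact lt_irrefl _ hlt
  constructor
  · refine ⟨G, G_conn, free_claw, free_net, D0, hmin, key, ⟨⟨Equiv.ofBijective
      (fun u => (⟨cl u, by simpa using cl_mem u⟩ : (D0 : Set (Fin 17)))) ⟨?_, ?_⟩, ?_⟩⟩⟩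
    · intro u v h
      exact cl_inj u v (by simpa using h)
    · rintro ⟨v, hv⟩
      have key2 : ∀ v : Fin 17, v ∈ D0 → ∃ u, cl u = v := by decide +kernel
      obtain ⟨u, hu⟩ := key2 v (by simpa using hv)
      exact ⟨u, Subtype.ext hu⟩
    · intro u v
      exact cl_adj u v
  · intro h
    obtain ⟨D, hD, hclaw, -⟩ := h 2 le_rfl (Fin 17) G G_conn free_claw free_net
    have e := key D hD
    subst e
    exact hclaw claw_in

end Pool.Agent.Results.MP_8b4774_co.DominatingClawUnavoidable
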